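import Mathlib

set_option autoImplicit false

open Filter

namespace Pool.Agent.H666R3.PC

universe u v

section group

variable (G : Type) [Group G]

/-- `G` is icc: it is infinite and every element other than `1` has an infinite conjugacy class. -/
def IsICC : Prop :=
  Infinite G ∧ ∀ g : G, g ≠ 1 → {k : G | ∃ h : G, k = h * g * h⁻¹}.Infinite

/-- `G` is residually finite. -/
def IsResiduallyFinite : Prop :=
  ∀ g : G, g ≠ 1 → ∃ (F : Type) (_ : Group F) (_ : Finite F) (f : G →* F), f g ≠ 1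

/-- `m` is a finitely additive probability measure on the subsets of `G` with `m {1} = 0` that is
invariant under conjugation. -/
structure IsInnerMean (m : Set G → ℝ) : Prop where
  nonneg : ∀ S, 0 ≤ m S
  univ : m Set.univ = 1
  one : m {1} = 0
  add : ∀ S S', Disjoint S S' → m (S ∪ S') = m S + m S'
  inv : ∀ (g : G) S, m ((fun h => g * h * g⁻¹) '' S) = m S

/-- `G` is inner amenable. -/
def IsInnerAmenable : Prop := ∃ m : Set G → ℝ, IsInnerMean G m

end group

section hilbert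

variable {G : Type} [Group G] {K : Type} [NormedAddCommGroup K] [InnerProductSpace ℂ K]
  [CompleteSpace K]

/-- The operators `λ_g` of the left regular representation of `G` on a model `K` of `ℓ²(G)`, a
Hilbert space with an orthonormal basis `b` indexed by `G`: `λ_g b_h = b_{gh}`. -/
def leftReg (b : HilbertBasis G ℂ K) : Set (K →L[ℂ] K) :=
  {T | ∃ g : G, ∀ h : G, T (b h) = b (g * h)}

/-- The group von Neumann algebra `L(G)`: the bicommutant of the operators `λ_g`. -/
def LG (b : HilbertBasis G ℂ K) : Set (K →L[ℂ] K) := Set.centralizer (Set.centralizer (leftReg b))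

/-- `x` is a norm bounded family in `L(G)`. -/
def BddN {I : Type u} (b : HilbertBasis G ℂ K) (x : I → (K →L[ℂ] K)) : Prop :=
  (∀ i, x i ∈ LG b) ∧ ∃ C : ℝ, ∀ i, ‖x i‖ ≤ C

/-- `x` and `x'` have the same class in the ultrapower of `L(G)` along `U₁`; the 2-norm of an
element `y` of `L(G)` is `‖y b_e‖`. -/
def EqN {I : Type u} (b : HilbertBasis G ℂ K) (U₁ : Ultrafilter I) (x x' : I → (K →L[ℂ] K)) :
    Prop :=
  ∀ ε : ℝ, 0 < ε → ∀ᶠ i in (U₁ : Filter I), ‖(x i - x' i) (b 1)‖ < ε

end hilbert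

section families

variable {G : Type} [Group G] {K : Type} [NormedAddCommGroup K] [InnerProductSpace ℂ K]
  [CompleteSpace K] {I : Type u} {J : Type v}

/-- The matrix algebra `M_n(ℂ)`. -/
abbrev Mat (n : ℕ) : Type := EuclideanSpace ℂ (Fin n) →L[ℂ] EuclideanSpace ℂ (Fin n)

/-- The square of the normalised 2-norm of a matrix, `tr(x* x)` with `tr(1) = 1`. -/
noncomputable def hs {n : ℕ} (x : Mat n) : ℝ :=
  (∑ k : Fin n, ‖x (EuclideanSpace.single k (1 : ℂ))‖ ^ 2) / (n : ℝ)

/-- `y` is a norm bounded family (indexed by `J`) of norm bounded sequences of matrices. -/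
def BddM (y : J → (n : ℕ) → Mat n) : Prop := ∃ C : ℝ, ∀ j n, ‖y j n‖ ≤ C

/-- `y` and `y'` have the same class in the ultrapower along `U₂` of the matrix ultraproduct
`∏_{n → U} M_n(ℂ)`. -/
def EqM (U₂ : Ultrafilter J) (U : Ultrafilter ℕ) (y y' : J → (n : ℕ) → Mat n) : Prop :=
  ∀ ε : ℝ, 0 < ε → ∀ᶠ j in (U₂ : Filter J), ∀ᶠ n in (U : Filter ℕ), hs (y j n - y' j n) < ε

/-- `Φ` induces a star isomorphism of the ultrapower of `L(G)` along `U₁` onto the ultrapower along
`U₂` of the matrix ultraproduct along `U`. -/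
structure IsIso (b : HilbertBasis G ℂ K) (U₁ : Ultrafilter I) (U₂ : Ultrafilter J)
    (U : Ultrafilter ℕ) (Φ : (I → (K →L[ℂ] K)) → (J → (n : ℕ) → Mat n)) : Prop where
  bdd : ∀ x, BddN b x → BddM (Φ x)
  inj : ∀ x x', BddN b x → BddN b x' → (EqN b U₁ x x' ↔ EqM U₂ U (Φ x) (Φ x'))
  surj : ∀ y, BddM y → ∃ x, BddN b x ∧ EqM U₂ U (Φ x) y
  add : ∀ x x', BddN b x → BddN b x' → EqM U₂ U (Φ (x + x')) (Φ x + Φ x')
  mul : ∀ x x', BddN b x → BddN b x' → EqM U₂ U (Φ (x * x')) (Φ x * Φ x')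
  star : ∀ x, BddN b x → EqM U₂ U (Φ (star x)) (star (Φ x))
  smul : ∀ (c : ℂ) x, BddN b x → EqM U₂ U (Φ (c • x)) (c • Φ x)

end families

/-- `L(G)` is elementarily equivalent to the matrix ultraproduct `∏_{n → U} M_n(ℂ)` for some
nonprincipal ultrafilter `U` on `ℕ`: some ultrapowers of the two are isomorphic. -/
def Pseudocompact (G : Type) [Group G] : Prop :=
  ∃ (K : Type) (_ : NormedAddCommGroup K) (_ : InnerProductSpace ℂ K) (_ : CompleteSpace K)
    (b : HilbertBasis G ℂ K) (U : Ultrafilter ℕ), (∀ n, {n} ∉ U) ∧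
    ∃ (I : Type u) (J : Type v) (U₁ : Ultrafilter I) (U₂ : Ultrafilter J)
      (Φ : (I → (K →L[ℂ] K)) → (J → (n : ℕ) → Mat n)), IsIso b U₁ U₂ U Φ

end Pool.Agent.H666R3.PC
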