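import Mathlib
import Pool.Agent.Helper436.SN.Tr1

set_option autoImplicit false
set_option linter.unusedSectionVars false

open scoped Topology
open Filter

namespace Pool.Agent.H666R3.PC

open Pool.Agent.Helper278 Pool.Agent.Helper436.SM Pool.Agent.Helper436.SN

universe w v

section

variable {K : Type w} {A : K → Type} [∀ k, CStarAlgebra (A k)]

/-- bounded families -/
def Bd (x : ∀ k, A k) : Prop := ∃ C : ℝ, ∀ k, ‖x k‖ ≤ C

theorem Bd.const_one : Bd (fun k => (1 : A k)) := by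
  refine ⟨1, fun k => ?_⟩
  show ‖(1 : A k)‖ ≤ 1
  rcases subsingleton_or_nontrivial (A k) with h | h
  · rw [Subsingleton.elim (1 : A k) 0, norm_zero]; exact zero_le_one
  · exact CStarRing.norm_one.le

theorem Bd.add {x y : ∀ k, A k} (hx : Bd x) (hy : Bd y) : Bd (fun k => x k + y k) := by
  obtain ⟨C, hC⟩ := hx
  obtain ⟨D, hD⟩ := hy
  exact ⟨C + D, fun k => (norm_add_le _ _).trans (add_le_add (hC k) (hD k))⟩

theorem Bd.sub {x y : ∀ k, A k} (hx : Bd x) (hy : Bd y) : Bd (fun k => x k - y k) := by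
  obtain ⟨C, hC⟩ := hx
  obtain ⟨D, hD⟩ := hy
  exact ⟨C + D, fun k => (norm_sub_le _ _).trans (add_le_add (hC k) (hD k))⟩

theorem Bd.mul {x y : ∀ k, A k} (hx : Bd x) (hy : Bd y) : Bd (fun k => x k * y k) := by
  obtain ⟨C, hC⟩ := hx
  obtain ⟨D, hD⟩ := hy
  refine ⟨C * D, fun k => (norm_mul_le _ _).trans ?_⟩
  exact mul_le_mul (hC k) (hD k) (norm_nonneg _) ((norm_nonneg _).trans (hC k))

theorem Bd.smul (c : ℂ) {x : ∀ k, A k} (hx : Bd x) : Bd (fun k => c • x k) := by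
  obtain ⟨C, hC⟩ := hx
  refine ⟨‖c‖ * C, fun k => ?_⟩
  rw [norm_smul]
  exact mul_le_mul_of_nonneg_left (hC k) (norm_nonneg _)

theorem Bd.st {x : ∀ k, A k} (hx : Bd x) : Bd (fun k => star (x k)) := by
  obtain ⟨C, hC⟩ := hx
  exact ⟨C, fun k => by rw [norm_star]; exact hC k⟩

theorem Bd.un {x : ∀ k, A k} (hx : ∀ k, x k ∈ unitary (A k)) : Bd x := by
  refine ⟨1, fun k => ?_⟩
  rcases subsingleton_or_nontrivial (A k) with h | h
  · rw [Subsingleton.elim (x k) 0, norm_zero]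
    exact zero_le_one
  · exact (CStarRing.norm_of_mem_unitary (hx k)).le

/-- tracial ultraproducts, auxiliary -/
structure IsTU {Q : Type v} [Ring Q] [StarRing Q] [Algebra ℂ Q] (τ : ∀ k, A k →ₗ[ℂ] ℂ)
    (W : Ultrafilter K) (π : (∀ k, A k) → Q) (φ : Q → ℂ) : Prop where
  one : π (fun _ => 1) = 1
  add : ∀ x y, Bd x → Bd y → π (fun i => x i + y i) = π x + π y
  mul : ∀ x y, Bd x → Bd y → π (fun i => x i * y i) = π x * π y
  smul : ∀ (c : ℂ) x, Bd x → π (fun i => c • x i) = c • π x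
  star : ∀ x, Bd x → π (fun i => Star.star (x i)) = Star.star (π x)
  surj : ∀ q, ∃ x, Bd x ∧ π x = q
  ker : ∀ x y, Bd x → Bd y → (π x = π y ↔ Tendsto (fun i => n2 (τ i) (x i - y i)) W (𝓝 0))
  trace : ∀ x, Bd x → Tendsto (fun i => τ i (x i)) W (𝓝 (φ (π x)))

variable {Q : Type v} [Ring Q] [StarRing Q] [Algebra ℂ Q] {τ : ∀ k, A k →ₗ[ℂ] ℂ}
  {W : Ultrafilter K} {π : (∀ k, A k) → Q} {φ : Q → ℂ}

theorem IsTU.sub (h : IsTU τ W π φ) {x y : ∀ k, A k} (hx : Bd x) (hy : Bd y) :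
    π (fun i => x i - y i) = π x - π y := by
  have h1 := h.add _ _ (hx.sub hy) hy
  have h2 : (fun i => x i - y i + y i) = x := funext fun i => sub_add_cancel _ _
  rw [h2] at h1
  rw [h1, add_sub_cancel_right]

/-- the 2-norm of a class is the limit of the 2-norms -/
theorem IsTU.tendsto_n2 (hπ : IsTU τ W π φ) (x : ∀ k, A k)
    (hx : Bd x) : Tendsto (fun i => n2 (τ i) (x i)) W (𝓝 (n2 φ (π x))) := by
  have h1 := hπ.trace (fun i => Star.star (x i) * x i) (hx.st.mul hx)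
  rw [hπ.mul _ _ hx.st hx, hπ.star x hx] at h1
  have h2 := (Complex.continuous_re.tendsto _).comp h1
  exact (Real.continuous_sqrt.tendsto _).comp h2

theorem IsTU.tendsto_ov (hπ : IsTU τ W π φ) (x y : ∀ k, A k)
    (hx : Bd x) (hy : Bd y) :
    Tendsto (fun i => ov (τ i) (x i) (y i)) W (𝓝 (ov φ (π x) (π y))) := by
  have h1 := hπ.trace (fun i => Star.star (x i) * y i) (hx.st.mul hy)
  rw [hπ.mul _ _ hx.st hy, hπ.star x hx] at h1
  exact h1.norm

theorem IsTU.tendsto_comm (hπ : IsTU τ W π φ) (x y : ∀ k, A k)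
    (hx : Bd x) (hy : Bd y) :
    Tendsto (fun i => n2 (τ i) (x i * y i - y i * x i)) W
      (𝓝 (n2 φ (π x * π y - π y * π x))) := by
  have h1 := hπ.tendsto_n2 (fun i => x i * y i - y i * x i) ((hx.mul hy).sub (hy.mul hx))
  rw [hπ.sub (hx.mul hy) (hy.mul hx), hπ.mul _ _ hx hy, hπ.mul _ _ hy hx] at h1
  exact h1

theorem IsTU.pi_unitary (hπ : IsTU τ W π φ) {x : ∀ k, A k}
    (hx : ∀ i, x i ∈ unitary (A i)) : π x ∈ unitary Q := by
  rw [Unitary.mem_iff]
  have hb := Bd.un hx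
  constructor
  · rw [← hπ.star x hb, ← hπ.mul _ _ hb.st hb, ← hπ.one]
    congr 1
    funext i
    exact (Unitary.mem_iff.1 (hx i)).1
  · rw [← hπ.star x hb, ← hπ.mul _ _ hb hb.st, ← hπ.one]
    congr 1
    funext i
    exact (Unitary.mem_iff.1 (hx i)).2

/-- unitaries of the ultraproduct lift to families of unitaries -/
theorem IsTU.exists_lift (hπ : IsTU τ W π φ)
    (hnear : ∀ k (x : A k), ∃ w ∈ unitary (A k),
      n2 (τ k) (x - w) ^ 2 ≤ n2 (τ k) (Star.star x * x - 1)) (q : Q)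
    (hq : q ∈ unitary Q) : ∃ x : ∀ k, A k, (∀ i, x i ∈ unitary (A i)) ∧ π x = q := by
  obtain ⟨x, hx, rfl⟩ := hπ.surj q
  choose w hw hwn using fun i => hnear i (x i)
  refine ⟨w, hw, ?_⟩
  have h1 : π (fun i => Star.star (x i) * x i) = π (fun _ => 1) := by
    rw [hπ.mul _ _ hx.st hx, hπ.star x hx, hπ.one]
    exact (Unitary.mem_iff.1 hq).1
  have h2 := (hπ.ker _ _ (hx.st.mul hx) Bd.const_one).1 h1
  have h3 : Tendsto (fun i => Real.sqrt (n2 (τ i) (Star.star (x i) * x i - 1))) W (𝓝 0) := by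
    have := (Real.continuous_sqrt.tendsto 0).comp h2
    rwa [Real.sqrt_zero] at this
  symm
  refine (hπ.ker _ _ hx (Bd.un hw)).2 (squeeze_zero (fun i => n2_nonneg _ _) (fun i => ?_) h3)
  exact Real.le_sqrt_of_sq_le (hwn i)

theorem IsTU.pi_conj (hπ : IsTU τ W π φ) (x y : ∀ k, A k)
    (hx : Bd x) (hy : Bd y) :
    π (fun i => x i * y i * Star.star (x i)) = π x * π y * Star.star (π x) := by
  rw [hπ.mul _ _ (hx.mul hy) hx.st, hπ.mul _ _ hx hy, hπ.star x hx]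

theorem IsTU.tendsto_conj (hπ : IsTU τ W π φ) (q x y : ∀ k, A k)
    (hq : Bd q) (hx : Bd x) (hy : Bd y) :
    Tendsto (fun i => n2 (τ i) (q i * (x i * y i * Star.star (x i)) -
        (x i * y i * Star.star (x i)) * q i)) W
      (𝓝 (n2 φ (π q * (π x * π y * Star.star (π x)) - (π x * π y * Star.star (π x)) * π q))) := by
  have h1 := hπ.tendsto_comm q (fun i => x i * y i * Star.star (x i)) hq ((hx.mul hy).mul hx.st)
  rw [hπ.pi_conj x y hx hy] at h1
  exact h1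

/-- from almost all levels to the ultraproduct -/
theorem IsTU.sol_up (hπ : IsTU τ W π φ) (p q : Fin 5 → ∀ k, A k)
    (hp : ∀ j i, p j i ∈ unitary (A i)) (hq : ∀ j i, q j i ∈ unitary (A i))
    (x : ∀ k, A k) (hx : ∀ i, x i ∈ unitary (A i)) (κ : ℝ)
    (h : ∀ᶠ i in W, Sol2 (τ i) (fun j => p j i) (fun j => q j i) κ (x i)) :
    Sol2 φ (fun j => π (p j)) (fun j => π (q j)) κ (π x) := by
  have bx := Bd.un hx
  have bp := fun j => Bd.un (hp j)
  have bq := fun j => Bd.un (hq j)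
  refine ⟨hπ.pi_unitary hx, ?_, ?_, ?_, ?_, ?_⟩
  · exact le_of_tendsto (hπ.tendsto_comm (p 0) x (bp 0) bx) (h.mono fun i hi => hi.2.1)
  · exact le_of_tendsto (hπ.tendsto_comm (p 1) x (bp 1) bx) (h.mono fun i hi => hi.2.2.1)
  · exact le_of_tendsto (hπ.tendsto_conj (p 2) x (p 4) (bp 2) bx (bp 4))
      (h.mono fun i hi => hi.2.2.2.1)
  · exact le_of_tendsto (hπ.tendsto_conj (p 3) x (p 4) (bp 3) bx (bp 4))
      (h.mono fun i hi => hi.2.2.2.2.1)
  · intro l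
    exact le_of_tendsto (hπ.tendsto_comm (q l) x (bq l) bx) (h.mono fun i hi => hi.2.2.2.2.2 l)

/-- from the ultraproduct to almost all levels -/
theorem IsTU.sol_down (hπ : IsTU τ W π φ) (p q : Fin 5 → ∀ k, A k)
    (hp : ∀ j i, p j i ∈ unitary (A i)) (hq : ∀ j i, q j i ∈ unitary (A i))
    (x : ∀ k, A k) (hx : ∀ i, x i ∈ unitary (A i)) (κ κ' : ℝ) (hκ : κ < κ')
    (h : Sol2 φ (fun j => π (p j)) (fun j => π (q j)) κ (π x)) :
    ∀ᶠ i in W, Sol2 (τ i) (fun j => p j i) (fun j => q j i) κ' (x i) := by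
  have bx := Bd.un hx
  have bp := fun j => Bd.un (hp j)
  have bq := fun j => Bd.un (hq j)
  obtain ⟨-, h1, h2, h3, h4, h5⟩ := h
  have e1 := (hπ.tendsto_comm (p 0) x (bp 0) bx).eventually (gt_mem_nhds (lt_of_le_of_lt h1 hκ))
  have e2 := (hπ.tendsto_comm (p 1) x (bp 1) bx).eventually (gt_mem_nhds (lt_of_le_of_lt h2 hκ))
  have e3 := (hπ.tendsto_conj (p 2) x (p 4) (bp 2) bx (bp 4)).eventually
    (gt_mem_nhds (lt_of_le_of_lt h3 hκ))
  have e4 := (hπ.tendsto_conj (p 3) x (p 4) (bp 3) bx (bp 4)).eventually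
    (gt_mem_nhds (lt_of_le_of_lt h4 hκ))
  have e5 : ∀ᶠ i in (W : Filter K), ∀ l, n2 (τ i) (q l i * x i - x i * q l i) < κ' := by
    rw [Filter.eventually_all]
    intro l
    exact (hπ.tendsto_comm (q l) x (bq l) bx).eventually (gt_mem_nhds (lt_of_le_of_lt (h5 l) hκ))
  filter_upwards [e1, e2, e3, e4, e5] with i k1 k2 k3 k4 k5
  exact ⟨hx i, k1.le, k2.le, k3.le, k4.le, fun l => (k5 l).le⟩

end

end Pool.Agent.H666R3.PC
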