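import Mathlib
import Pool.Agent.H666R3.PC.TU
import Pool.Agent.Helper436.SN.Seq

set_option autoImplicit false
set_option linter.unusedSectionVars false

open scoped Topology
open Filter

namespace Pool.Agent.H666R3.PC

open Pool.Agent.Helper278 Pool.Agent.Helper436.SM Pool.Agent.Helper436.SN

universe w v

/-- The part of the property that forces infinity. -/
structure Inf3 {A : Type*} [Ring A] [StarRing A] (φ : A → ℂ) (p q : Fin 5 → A)
    (κ κ' c e : ℝ) : Prop where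
  inj : ∀ x y, Sol2 φ p q κ x → Sol2 φ p q κ y → c ≤ ov φ (x * x) (y * y) → 1 - e ≤ ov φ x y
  sq : ∀ x, Sol2 φ p q κ x → ∃ y, Sol2 φ p q κ' y ∧ 1 - e ≤ ov φ y (x * x)
  ne : ∃ x, Sol2 φ p q κ' x ∧ ∀ y, Sol2 φ p q κ y → ov φ x (y * y) ≤ c

section

variable {K : Type w} {A : K → Type} [∀ k, CStarAlgebra (A k)]
  {Q : Type v} [Ring Q] [StarRing Q] [Algebra ℂ Q] {τ : ∀ k, A k →ₗ[ℂ] ℂ}
  {W : Ultrafilter K} {π : (∀ k, A k) → Q} {φ : Q → ℂ}

theorem Inf3.down (hπ : IsTU τ W π φ)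
    (hnear : ∀ k (x : A k), ∃ w ∈ unitary (A k),
      n2 (τ k) (x - w) ^ 2 ≤ n2 (τ k) (Star.star x * x - 1))
    (p q : Fin 5 → ∀ k, A k)
    (hp : ∀ j i, p j i ∈ unitary (A i)) (hq : ∀ j i, q j i ∈ unitary (A i))
    {κ κ' c e κ₂ κ₂' c₂ e₂ : ℝ} (hκ : κ₂ ≤ κ) (hκ' : κ' < κ₂')
    (hc : c < c₂) (he : e < e₂)
    (h : Inf3 φ (fun j => π (p j)) (fun j => π (q j)) κ κ' c e) :
    ∀ᶠ i in W, Inf3 (τ i) (fun j => p j i) (fun j => q j i) κ₂ κ₂' c₂ e₂ := by
  have mono : ∀ x : Q, Sol2 φ (fun j => π (p j)) (fun j => π (q j)) κ₂ x →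
      Sol2 φ (fun j => π (p j)) (fun j => π (q j)) κ x := fun x hx => hx.mono hκ
  have f1 : ∀ᶠ i in (W : Filter K), ∀ x y, Sol2 (τ i) (fun j => p j i) (fun j => q j i) κ₂ x →
      Sol2 (τ i) (fun j => p j i) (fun j => q j i) κ₂ y → c₂ ≤ ov (τ i) (x * x) (y * y) →
      1 - e₂ ≤ ov (τ i) x y := by
    by_contra hcon
    rw [← Ultrafilter.eventually_not] at hcon
    have h6 : ∀ i, ∃ x ∈ unitary (A i), ∃ y ∈ unitary (A i),
        (¬ ∀ x y, Sol2 (τ i) (fun j => p j i) (fun j => q j i) κ₂ x →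
          Sol2 (τ i) (fun j => p j i) (fun j => q j i) κ₂ y →
          c₂ ≤ ov (τ i) (x * x) (y * y) → 1 - e₂ ≤ ov (τ i) x y) →
        Sol2 (τ i) (fun j => p j i) (fun j => q j i) κ₂ x ∧
          Sol2 (τ i) (fun j => p j i) (fun j => q j i) κ₂ y ∧
          c₂ ≤ ov (τ i) (x * x) (y * y) ∧ ov (τ i) x y < 1 - e₂ := by
      intro i
      by_cases hi : ∀ x y, Sol2 (τ i) (fun j => p j i) (fun j => q j i) κ₂ x →
          Sol2 (τ i) (fun j => p j i) (fun j => q j i) κ₂ y →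
          c₂ ≤ ov (τ i) (x * x) (y * y) → 1 - e₂ ≤ ov (τ i) x y
      · exact ⟨1, one_mem _, 1, one_mem _, fun h => absurd hi h⟩
      · have hi' := hi
        push Not at hi'
        obtain ⟨x, y, k1, k2, k3, k4⟩ := hi'
        exact ⟨x, k1.1, y, k2.1, fun _ => ⟨k1, k2, k3, k4⟩⟩
    choose x hxu y hyu hxy using h6
    have bx := Bd.un hxu
    have by' := Bd.un hyu
    have s1 := mono _ (hπ.sol_up p q hp hq x hxu κ₂ (hcon.mono fun i hi => (hxy i hi).1))
    have s2 := mono _ (hπ.sol_up p q hp hq y hyu κ₂ (hcon.mono fun i hi => (hxy i hi).2.1))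
    have e3 := hπ.tendsto_ov (fun i => x i * x i) (fun i => y i * y i) (bx.mul bx)
      (by'.mul by')
    rw [hπ.mul _ _ bx bx, hπ.mul _ _ by' by'] at e3
    have e4 := ge_of_tendsto e3 (hcon.mono fun i hi => (hxy i hi).2.2.1)
    have e5 := h.inj _ _ s1 s2 (hc.le.trans e4)
    have e6 := le_of_tendsto (hπ.tendsto_ov x y bx by') (hcon.mono fun i hi =>
      (hxy i hi).2.2.2.le)
    linarith
  have f2 : ∀ᶠ i in (W : Filter K), ∀ x, Sol2 (τ i) (fun j => p j i) (fun j => q j i) κ₂ x →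
      ∃ y, Sol2 (τ i) (fun j => p j i) (fun j => q j i) κ₂' y ∧
        1 - e₂ ≤ ov (τ i) y (x * x) := by
    by_contra hcon
    rw [← Ultrafilter.eventually_not] at hcon
    have h6 : ∀ i, ∃ x ∈ unitary (A i),
        (¬ ∀ x, Sol2 (τ i) (fun j => p j i) (fun j => q j i) κ₂ x →
          ∃ y, Sol2 (τ i) (fun j => p j i) (fun j => q j i) κ₂' y ∧
            1 - e₂ ≤ ov (τ i) y (x * x)) →
        Sol2 (τ i) (fun j => p j i) (fun j => q j i) κ₂ x ∧
          ∀ y, Sol2 (τ i) (fun j => p j i) (fun j => q j i) κ₂' y →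
            ov (τ i) y (x * x) < 1 - e₂ := by
      intro i
      by_cases hi : ∀ x, Sol2 (τ i) (fun j => p j i) (fun j => q j i) κ₂ x →
          ∃ y, Sol2 (τ i) (fun j => p j i) (fun j => q j i) κ₂' y ∧
            1 - e₂ ≤ ov (τ i) y (x * x)
      · exact ⟨1, one_mem _, fun h => absurd hi h⟩
      · have hi' := hi
        push Not at hi'
        obtain ⟨x, k1, k2⟩ := hi'
        exact ⟨x, k1.1, fun _ => ⟨k1, k2⟩⟩
    choose x hxu hx using h6
    have bx := Bd.un hxu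
    have s1 := mono _ (hπ.sol_up p q hp hq x hxu κ₂ (hcon.mono fun i hi => (hx i hi).1))
    obtain ⟨Y, hY1, hY2⟩ := h.sq _ s1
    obtain ⟨y, hyu, rfl⟩ := hπ.exists_lift hnear Y hY1.1
    have s2 := hπ.sol_down p q hp hq y hyu κ' κ₂' hκ' hY1
    have e3 := hπ.tendsto_ov y (fun i => x i * x i) (Bd.un hyu) (bx.mul bx)
    rw [hπ.mul _ _ bx bx] at e3
    have e4 := le_of_tendsto e3 ((s2.and hcon).mono fun i hi => ((hx i hi.2).2 _ hi.1).le)
    linarith
  have f3 : ∀ᶠ i in (W : Filter K), ∃ x, Sol2 (τ i) (fun j => p j i) (fun j => q j i) κ₂' x ∧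
      ∀ y, Sol2 (τ i) (fun j => p j i) (fun j => q j i) κ₂ y → ov (τ i) x (y * y) ≤ c₂ := by
    by_contra hcon
    rw [← Ultrafilter.eventually_not] at hcon
    obtain ⟨X, hX1, hX2⟩ := h.ne
    obtain ⟨x, hxu, rfl⟩ := hπ.exists_lift hnear X hX1.1
    have s1 := hπ.sol_down p q hp hq x hxu κ' κ₂' hκ' hX1
    have h6 : ∀ i, ∃ y ∈ unitary (A i),
        ((¬ ∃ x, Sol2 (τ i) (fun j => p j i) (fun j => q j i) κ₂' x ∧
          ∀ y, Sol2 (τ i) (fun j => p j i) (fun j => q j i) κ₂ y →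
            ov (τ i) x (y * y) ≤ c₂) ∧
          Sol2 (τ i) (fun j => p j i) (fun j => q j i) κ₂' (x i)) →
        Sol2 (τ i) (fun j => p j i) (fun j => q j i) κ₂ y ∧ c₂ < ov (τ i) (x i) (y * y) := by
      intro i
      by_cases hi : (¬ ∃ x, Sol2 (τ i) (fun j => p j i) (fun j => q j i) κ₂' x ∧
          ∀ y, Sol2 (τ i) (fun j => p j i) (fun j => q j i) κ₂ y →
            ov (τ i) x (y * y) ≤ c₂) ∧
          Sol2 (τ i) (fun j => p j i) (fun j => q j i) κ₂' (x i)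
      · obtain ⟨h7, h8⟩ := hi
        push Not at h7
        obtain ⟨y, k1, k2⟩ := h7 (x i) h8
        exact ⟨y, k1.1, fun _ => ⟨k1, k2⟩⟩
      · exact ⟨1, one_mem _, fun h => absurd h hi⟩
    choose y hyu hy using h6
    have by' := Bd.un hyu
    have hev := hcon.and s1
    have s2 := mono _ (hπ.sol_up p q hp hq y hyu κ₂ (hev.mono fun i hi => (hy i hi).1))
    have e1 := hX2 _ s2
    have e3 := hπ.tendsto_ov x (fun i => y i * y i) (Bd.un hxu) (by'.mul by')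
    rw [hπ.mul _ _ by' by'] at e3
    have e4 := ge_of_tendsto e3 (hev.mono fun i hi => (hy i hi).2.le)
    linarith
  filter_upwards [f1, f2, f3] with i k1 k2 k3
  exact ⟨k1, k2, k3⟩

end

section

variable {A : Type} [Ring A] [StarRing A] [Algebra ℂ A] [StarModule ℂ A] {τ : A →ₗ[ℂ] ℂ}

/-- an infinite separated family of unitaries -/
theorem Inf3.seq (hτ : TrAlg τ) {p q : Fin 5 → A} {κ c e : ℝ} (hc : c ≤ 1 / 2)
    (he : e ≤ 1 / 100) (h : Inf3 τ p q κ κ c e) :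
    ∃ x : ℕ → A, (∀ n, x n ∈ unitary A) ∧ ∀ m n, m ≠ n → 1 / 2 ≤ n2 τ (x m - x n) := by
  obtain ⟨inj, hsq, hne⟩ := h
  have sq' : ∀ x, Sol2 τ p q κ x → ∃ y, Sol2 τ p q κ y ∧ 1 - e ≤ ov τ y (x * x) := hsq
  obtain ⟨x0, hx0, hx0'⟩ := hne
  choose! g hg1 hg2 using sq'
  let x : ℕ → A := fun n => g^[n] x0
  have hx : ∀ n, Sol2 τ p q κ (x n) := by
    intro n
    induction n with
    | zero => exact hx0
    | succ n ih =>
      show Sol2 τ p q κ (g^[n + 1] x0)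
      rw [Function.iterate_succ_apply']
      exact hg1 _ ih
  have hxs : ∀ n, 99 / 100 ≤ ov τ (x (n + 1)) (x n * x n) := by
    intro n
    show 99 / 100 ≤ ov τ (g^[n + 1] x0) (x n * x n)
    rw [Function.iterate_succ_apply']
    have := hg2 _ (hx n)
    change 1 - e ≤ ov τ (g (g^[n] x0)) (x n * x n) at this
    linarith
  have hu : ∀ n, x n ∈ unitary A := fun n => (hx n).1
  have hcl := NoPty.claim hτ x hu (fun n => (hx0' _ (hx n)).trans hc) hxs (fun m n h => by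
    have := inj _ _ (hx m) (hx n) (hc.trans h)
    linarith)
  have hcl2 : ∀ m n, m ≠ n → ov τ (x m) (x n) < 3 / 4 := by
    intro m n hmn
    rcases lt_or_gt_of_ne hmn with h | h
    · exact hcl m n h
    · rw [ov_symm' hτ]
      exact hcl n m h
  exact ⟨x, hu, fun m n hmn => dist_of_ov hτ (hu m) (hu n) (hcl2 m n hmn)⟩

end

end Pool.Agent.H666R3.PC
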