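import Mathlib
import Pool.Agent.Helper278.Lift
import Pool.Agent.Helper278.CEStmt

set_option autoImplicit false
set_option linter.unusedSectionVars false

open scoped InnerProductSpace Topology ComplexOrder BoundedContinuousFunction
open Filter

namespace Pool.Agent.H666R3.PC

open Pool.Agent.Helper278

universe w

section

variable {H : Type} [NormedAddCommGroup H] [InnerProductSpace ℂ H] [CompleteSpace H]
variable {N : VonNeumannAlgebra H}
variable {I : Type w} [TopologicalSpace I] [DiscreteTopology I]

/-- The congruence of bounded families that agree in the limit. -/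
noncomputable def nullConI (T : TracialState N) (U : Ultrafilter I) : RingCon (I →ᵇ Elt N) where
  r x y := Tendsto (fun n => n2 T.τ (x n - y n)) U (𝓝 0)
  iseqv := by
    have hA := trAlg T
    refine ⟨?_, ?_, ?_⟩
    · intro x
      have : (fun n => n2 T.τ (x n - x n)) = fun _ => 0 := by
        funext n
        rw [sub_self, hA.n2_zero]
      rw [this]
      exact tendsto_const_nhds
    · intro x y h
      refine h.congr fun n => ?_
      rw [hA.n2_sub_comm]
    · intro x y z h1 h2
      have h3 := h1.add h2
      rw [add_zero] at h3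
      exact squeeze_zero (fun n => n2_nonneg _ _) (fun n => hA.n2_tri _ _ _) h3
  mul' := by
    intro w x y z h1 h2
    have hA := trAlg T
    have h3 := (h1.const_mul ‖y‖).add (h2.const_mul ‖x‖)
    rw [mul_zero, mul_zero, add_zero] at h3
    refine squeeze_zero (fun n => n2_nonneg _ _) (fun n => ?_) h3
    have e : (w * y) n - (x * z) n = (w n - x n) * y n + x n * (y n - z n) := by
      rw [BoundedContinuousFunction.mul_apply, BoundedContinuousFunction.mul_apply]
      noncomm_ring
    rw [e]
    refine (hA.n2_add_le _ _).trans (add_le_add ?_ ?_)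
    · refine (n2_mul_le' T _ _).trans ?_
      exact mul_le_mul_of_nonneg_right (y.norm_coe_le_norm n) (n2_nonneg _ _)
    · refine (n2_mul_le T _ _).trans ?_
      exact mul_le_mul_of_nonneg_right (x.norm_coe_le_norm n) (n2_nonneg _ _)
  add' := by
    intro w x y z h1 h2
    have hA := trAlg T
    have h3 := h1.add h2
    rw [add_zero] at h3
    refine squeeze_zero (fun n => n2_nonneg _ _) (fun n => ?_) h3
    have e : (w + y) n - (x + z) n = (w n - x n) + (y n - z n) := by
      rw [BoundedContinuousFunction.add_apply, BoundedContinuousFunction.add_apply]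
      abel
    rw [e]
    exact hA.n2_add_le _ _

theorem nullConI_star (T : TracialState N) (U : Ultrafilter I) (x y : I →ᵇ Elt N)
    (h : nullConI T U x y) : nullConI T U (star x) (star y) := by
  have hA := trAlg T
  have h' : Tendsto (fun n => n2 T.τ (x n - y n)) U (𝓝 0) := h
  show Tendsto (fun n => n2 T.τ ((star x) n - (star y) n)) U (𝓝 0)
  refine h'.congr fun n => ?_
  show _ = n2 T.τ (star (x n) - star (y n))
  rw [← star_sub, hA.n2_star]

/-- The limit of the traces exists. -/
theorem exists_limI (T : TracialState N) (U : Ultrafilter I) (x : I →ᵇ Elt N) :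
    ∃ c : ℂ, Tendsto (fun n => T.τ (x n)) U (𝓝 c) := by
  have hA := trAlg T
  have hc : IsCompact (Metric.closedBall (0 : ℂ) ‖x‖) := isCompact_closedBall _ _
  have h1 : (U.map (fun n => T.τ (x n)) : Ultrafilter ℂ) ≤ 𝓟 (Metric.closedBall (0 : ℂ) ‖x‖) := by
    rw [Ultrafilter.coe_map, le_principal_iff, mem_map]
    refine Filter.Eventually.of_forall fun n => ?_
    show T.τ (x n) ∈ _
    rw [mem_closedBall_zero_iff]
    refine (hA.norm_le _).trans ?_
    have h2 := n2_mul_le T (x n) 1
    rw [mul_one, hA.n2_one, mul_one] at h2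
    exact h2.trans (x.norm_coe_le_norm n)
  obtain ⟨c, _, hc2⟩ := (isCompact_iff_ultrafilter_le_nhds.1 hc) _ h1
  exact ⟨c, hc2⟩

/-- Tracial ultrapowers exist. -/
theorem exists_ultrapowerI (T : TracialState N) (U : Ultrafilter I) :
    ∃ (P : Type w) (_ : Ring P) (_ : StarRing P) (_ : Algebra ℂ P) (π : (I → Elt N) → P)
      (φ : P → ℂ), CE.IsTracialUltrapower (fun x => T.τ x) U π φ := by
  classical
  have hA := trAlg T
  let c := nullConI T U
  let P : Type w := c.Quotient
  let st : P → P := Quotient.map' star (fun x y h => nullConI_star T U x y h)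
  have hst : ∀ x : I →ᵇ Elt N, st (x : c.Quotient) = ((star x : I →ᵇ Elt N) : c.Quotient) :=
    fun x => rfl
  let sr : StarRing P :=
    { star := st
      star_involutive := by
        intro q
        induction q using Quotient.inductionOn' with
        | h x =>
          show st (st (x : c.Quotient)) = (x : c.Quotient)
          rw [hst, hst, star_star]
      star_mul := by
        intro p q
        induction p using Quotient.inductionOn' with
        | h x =>
          induction q using Quotient.inductionOn' with
          | h y =>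
            show st ((x : c.Quotient) * (y : c.Quotient)) = st (y : c.Quotient) * st (x : c.Quotient)
            rw [hst, hst, ← RingCon.coe_mul, ← RingCon.coe_mul, hst]
            exact congrArg (fun z : I →ᵇ Elt N => (z : c.Quotient)) (StarMul.star_mul x y)
      star_add := by
        intro p q
        induction p using Quotient.inductionOn' with
        | h x =>
          induction q using Quotient.inductionOn' with
          | h y =>
            show st ((x : c.Quotient) + (y : c.Quotient)) = st (x : c.Quotient) + st (y : c.Quotient)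
            rw [hst, hst, ← RingCon.coe_add, ← RingCon.coe_add, hst, star_add] }
  let toBI : (x : I → Elt N) → CE.BddFam x → (I →ᵇ Elt N) := fun x h =>
    BoundedContinuousFunction.ofNormedAddCommGroupDiscrete x h.choose h.choose_spec
  let π : (I → Elt N) → P := fun x =>
    if h : CE.BddFam x then ((toBI x h : I →ᵇ Elt N) : c.Quotient) else 0
  have hπ : ∀ (x : I → Elt N) (y : I →ᵇ Elt N), (∀ i, y i = x i) → π x = (y : c.Quotient) := by
    intro x y hxy
    have hb : CE.BddFam x := ⟨‖y‖, fun n => by rw [← hxy n]; exact y.norm_coe_le_norm n⟩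
    show (if h : CE.BddFam x then ((toBI x h : I →ᵇ Elt N) : c.Quotient) else 0) = _
    rw [dif_pos hb]
    congr 1
    ext1 i
    exact (hxy i).symm
  choose L hL using exists_limI T U
  have hLw : ∀ x y : I →ᵇ Elt N, c x y → L x = L y := by
    intro x y hxy
    have h1 : Tendsto (fun n => n2 T.τ (x n - y n)) U (𝓝 0) := hxy
    have h2 : Tendsto (fun n => T.τ (x n) - T.τ (y n)) U (𝓝 0) := by
      rw [tendsto_zero_iff_norm_tendsto_zero]
      refine squeeze_zero (fun n => norm_nonneg _) (fun n => ?_) h1
      rw [← map_sub]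
      exact hA.norm_le _
    have h3 := (hL x).sub (hL y)
    exact sub_eq_zero.1 (tendsto_nhds_unique h3 h2)
  let σ : P → ℂ := Quotient.lift L hLw
  refine ⟨P, inferInstance, sr, inferInstance, π, σ, ⟨?_, ?_, ?_, ?_, ?_, ?_, ?_⟩, ?_⟩
  · exact hπ _ 1 (fun i => rfl)
  · intro x y hx hy
    rw [hπ x (toBI x hx) (fun i => rfl), hπ y (toBI y hy) (fun i => rfl)]
    exact hπ _ (toBI x hx + toBI y hy) (fun i => rfl)
  · intro x y hx hy
    rw [hπ x (toBI x hx) (fun i => rfl), hπ y (toBI y hy) (fun i => rfl)]
    exact hπ _ (toBI x hx * toBI y hy) (fun i => rfl)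
  · intro r x hx
    rw [hπ x (toBI x hx) (fun i => rfl)]
    exact hπ _ (r • toBI x hx) (fun i => rfl)
  · intro x hx
    rw [hπ x (toBI x hx) (fun i => rfl)]
    exact hπ _ (star (toBI x hx)) (fun i => rfl)
  · intro q
    induction q using Quotient.inductionOn' with
    | h y => exact ⟨fun i => y i, ⟨‖y‖, fun i => y.norm_coe_le_norm i⟩, hπ _ y (fun i => rfl)⟩
  · intro x hx
    rw [hπ x (toBI x hx) (fun i => rfl)]
    have h0 : (((toBI x hx : I →ᵇ Elt N) : c.Quotient) = 0) ↔
        (((toBI x hx : I →ᵇ Elt N) : c.Quotient) = ((0 : I →ᵇ Elt N) : c.Quotient)) := Iff.rfl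
    rw [h0, RingCon.eq]
    show Tendsto (fun i => n2 T.τ ((toBI x hx) i - (0 : I →ᵇ Elt N) i)) U (𝓝 0) ↔ _
    have h1 : (fun i => n2 T.τ ((toBI x hx) i - (0 : I →ᵇ Elt N) i)) = fun i => n2 T.τ (x i) := by
      funext i
      rw [BoundedContinuousFunction.coe_zero, Pi.zero_apply, sub_zero]
      rfl
    rw [h1]
    exact (hA.tendsto_iff _ _).symm
  · intro x hx
    rw [hπ x (toBI x hx) (fun i => rfl)]
    exact hL (toBI x hx)

end

/-- Tracial ultrapowers exist, over any index set. -/
theorem exists_up {H : Type} [NormedAddCommGroup H] [InnerProductSpace ℂ H] [CompleteSpace H]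
    {N : VonNeumannAlgebra H} (T : TracialState N) {I : Type w} (U : Ultrafilter I) :
    ∃ (P : Type w) (_ : Ring P) (_ : StarRing P) (_ : Algebra ℂ P) (π : (I → Elt N) → P)
      (φ : P → ℂ), CE.IsTracialUltrapower (fun x => T.τ x) U π φ := by
  letI : TopologicalSpace I := ⊥
  haveI : DiscreteTopology I := ⟨rfl⟩
  exact exists_ultrapowerI T U

end Pool.Agent.H666R3.PC
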