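import Mathlib
import Pool.Agent.H666R3.PC.Defs
import Pool.Agent.Helper278.UnitLift

set_option autoImplicit false
set_option linter.unusedSectionVars false

open scoped InnerProductSpace Topology ComplexOrder
open Filter

namespace Pool.Agent.H666R3.PC

open Pool.Agent.Helper278

/-- the basis vectors -/
noncomputable def eb {n : ℕ} (k : Fin n) : EuclideanSpace ℂ (Fin n) :=
  EuclideanSpace.single k (1 : ℂ)

theorem eb_basis {n : ℕ} (k : Fin n) : EuclideanSpace.basisFun (Fin n) ℂ k = eb k := by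
  rw [EuclideanSpace.basisFun_apply]
  rfl

/-- the normalised trace -/
noncomputable def mtr (n : ℕ) : Mat n →ₗ[ℂ] ℂ where
  toFun x := (n : ℂ)⁻¹ * ∑ k : Fin n, ⟪eb k, x (eb k)⟫_ℂ
  map_add' x y := by
    rw [← mul_add, ← Finset.sum_add_distrib]
    congr 1
    refine Finset.sum_congr rfl fun k _ => ?_
    exact inner_add_right _ _ _
  map_smul' c x := by
    have h : ∀ k : Fin n, ⟪eb k, (c • x) (eb k)⟫_ℂ = c * ⟪eb k, x (eb k)⟫_ℂ :=
      fun k => inner_smul_right _ _ _
    simp only [h]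
    rw [RingHom.id_apply, smul_eq_mul, ← Finset.mul_sum, mul_left_comm]

theorem mtr_apply {n : ℕ} (x : Mat n) : mtr n x = (n : ℂ)⁻¹ * ∑ k : Fin n, ⟪eb k, x (eb k)⟫_ℂ :=
  rfl

theorem mtr_star_mul {n : ℕ} (x : Mat n) : mtr n (star x * x) = ((hs x : ℝ) : ℂ) := by
  rw [mtr_apply]
  unfold hs
  push_cast
  rw [div_eq_inv_mul]
  congr 1
  refine Finset.sum_congr rfl fun k _ => ?_
  show ⟪eb k, (star x) (x (eb k))⟫_ℂ = _
  rw [ContinuousLinearMap.star_eq_adjoint,
    ContinuousLinearMap.adjoint_inner_right, inner_self_eq_norm_sq_to_K]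
  rfl

theorem hs_nonneg {n : ℕ} (x : Mat n) : 0 ≤ hs x := by
  unfold hs
  positivity

theorem n2_mtr {n : ℕ} (x : Mat n) : n2 (mtr n) x = Real.sqrt (hs x) := by
  unfold n2
  rw [mtr_star_mul, Complex.ofReal_re]

theorem mtr_comm {n : ℕ} (x y : Mat n) : mtr n (x * y) = mtr n (y * x) := by
  rw [mtr_apply, mtr_apply]
  congr 1
  have h1 := LinearMap.trace_eq_sum_inner ((x * y : Mat n) : EuclideanSpace ℂ (Fin n) →ₗ[ℂ] _)
    (EuclideanSpace.basisFun (Fin n) ℂ)
  have h2 := LinearMap.trace_eq_sum_inner ((y * x : Mat n) : EuclideanSpace ℂ (Fin n) →ₗ[ℂ] _)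
    (EuclideanSpace.basisFun (Fin n) ℂ)
  simp only [eb_basis] at h1 h2
  have h3 : LinearMap.trace ℂ _ ((x * y : Mat n) : EuclideanSpace ℂ (Fin n) →ₗ[ℂ] _) =
      LinearMap.trace ℂ _ ((y * x : Mat n) : EuclideanSpace ℂ (Fin n) →ₗ[ℂ] _) :=
    LinearMap.trace_mul_comm ℂ (x : EuclideanSpace ℂ (Fin n) →ₗ[ℂ] EuclideanSpace ℂ (Fin n))
      (y : EuclideanSpace ℂ (Fin n) →ₗ[ℂ] EuclideanSpace ℂ (Fin n))
  rw [h1, h2] at h3
  exact h3

theorem mtr_conj {n : ℕ} (x : Mat n) : mtr n (star x) = star (mtr n x) := by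
  rw [mtr_apply, mtr_apply, star_mul', star_sum]
  congr 1
  · simp
  · refine Finset.sum_congr rfl fun k _ => ?_
    rw [ContinuousLinearMap.star_eq_adjoint, ContinuousLinearMap.adjoint_inner_right]
    exact (inner_conj_symm _ _).symm

theorem norm_eb {n : ℕ} (k : Fin n) : ‖eb k‖ = 1 := by
  unfold eb
  simp

theorem mtr_one {n : ℕ} (hn : n ≠ 0) : mtr n 1 = 1 := by
  rw [mtr_apply]
  have : ∀ k : Fin n, ⟪eb k, (1 : Mat n) (eb k)⟫_ℂ = 1 := by
    intro k
    show ⟪eb k, eb k⟫_ℂ = 1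
    rw [inner_self_eq_norm_sq_to_K, norm_eb]
    simp
  simp only [this]
  rw [Finset.sum_const, Finset.card_univ, Fintype.card_fin, nsmul_eq_mul, mul_one]
  exact inv_mul_cancel₀ (Nat.cast_ne_zero.2 hn)

theorem mtr_faithful {n : ℕ} (x : Mat n) (h : mtr n (star x * x) = 0) : x = 0 := by
  rcases Nat.eq_zero_or_pos n with hn | hn
  · subst hn
    exact Subsingleton.elim _ _
  rw [mtr_star_mul, Complex.ofReal_eq_zero] at h
  unfold hs at h
  rw [div_eq_zero_iff] at h
  rcases h with h | h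
  · rw [Finset.sum_eq_zero_iff_of_nonneg (fun _ _ => by positivity)] at h
    apply ContinuousLinearMap.coe_injective
    refine (EuclideanSpace.basisFun (Fin n) ℂ).toBasis.ext fun k => ?_
    have h1 := h k (Finset.mem_univ k)
    rw [OrthonormalBasis.coe_toBasis, eb_basis]
    show x (eb k) = 0
    have h2 : ‖x (eb k)‖ = 0 := pow_eq_zero_iff (two_ne_zero) |>.1 h1
    exact norm_eq_zero.1 h2
  · exact absurd h (Nat.cast_ne_zero.2 hn.ne')

theorem trAlg_mtr {n : ℕ} (hn : n ≠ 0) : TrAlg (mtr n) where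
  one := mtr_one hn
  comm := mtr_comm
  nonneg x := by
    rw [mtr_star_mul]
    exact Complex.zero_le_real.2 (hs_nonneg x)
  conj := mtr_conj
  faithful := mtr_faithful

theorem hs_le {n : ℕ} (x : Mat n) : hs x ≤ ‖x‖ ^ 2 := by
  unfold hs
  rcases Nat.eq_zero_or_pos n with hn | hn
  · subst hn
    simp
  rw [div_le_iff₀ (by exact_mod_cast hn)]
  calc ∑ k : Fin n, ‖x (EuclideanSpace.single k (1 : ℂ))‖ ^ 2 ≤ ∑ _k : Fin n, ‖x‖ ^ 2 := by
        refine Finset.sum_le_sum fun k _ => ?_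
        have h1 := x.le_opNorm (eb k)
        rw [norm_eb, mul_one] at h1
        exact pow_le_pow_left₀ (norm_nonneg _) h1 2
    _ = ‖x‖ ^ 2 * n := by
        rw [Finset.sum_const, Finset.card_univ, Fintype.card_fin, nsmul_eq_mul, mul_comm]

theorem n2_mtr_le {n : ℕ} (x : Mat n) : n2 (mtr n) x ≤ ‖x‖ := by
  rw [n2_mtr]
  exact Real.sqrt_le_iff.2 ⟨norm_nonneg _, hs_le x⟩

/-- all operators -/
noncomputable def topVN (n : ℕ) : VonNeumannAlgebra (EuclideanSpace ℂ (Fin n)) where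
  toStarSubalgebra := ⊤
  centralizer_centralizer' := by
    apply Set.Subset.antisymm
    · intro x _
      exact Set.mem_univ x
    · exact Set.subset_centralizer_centralizer

theorem mem_topVN {n : ℕ} (x : Mat n) : x ∈ (topVN n).toStarSubalgebra := by
  show x ∈ (⊤ : StarSubalgebra ℂ (Mat n))
  exact StarSubalgebra.mem_top

/-- the trace as a tracial state -/
noncomputable def mState (n : ℕ) (hn : n ≠ 0) : TracialState (topVN n) where
  τ :=
    { toFun := fun x => mtr n (x : Mat n)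
      map_add' := fun x y => map_add (mtr n) _ _
      map_smul' := fun c x => map_smul (mtr n) _ _ }
  normal := by
    classical
    let r : ℂ := (((Real.sqrt n)⁻¹ : ℝ) : ℂ)
    have hr : star r * r = (n : ℂ)⁻¹ := by
      show (starRingEnd ℂ) r * r = _
      rw [Complex.conj_ofReal, ← Complex.ofReal_mul, ← mul_inv, Real.mul_self_sqrt (Nat.cast_nonneg n)]
      push_cast
      rfl
    obtain ⟨ξ, h1, h2⟩ : ∃ ξ : ℕ → EuclideanSpace ℂ (Fin n), (∀ k : Fin n, ξ k = r • eb k) ∧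
        ∀ k, ¬ k < n → ξ k = 0 :=
      ⟨fun k => if h : k < n then r • eb (⟨k, h⟩ : Fin n) else 0, fun k => dif_pos k.2,
        fun k hk => dif_neg hk⟩
    refine ⟨ξ, ?_, ?_⟩
    · refine summable_of_ne_finset_zero (s := Finset.range n) fun k hk => ?_
      rw [Finset.mem_range] at hk
      rw [h2 k hk, norm_zero]
      norm_num
    · intro x
      rw [tsum_eq_sum (s := Finset.range n)]
      · rw [Finset.sum_range]
        show mtr n (x : Mat n) = _
        rw [mtr_apply, Finset.mul_sum]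
        refine Finset.sum_congr rfl fun k _ => ?_
        rw [h1 k]
        show _ = ⟪r • eb k, (x : Mat n) (r • eb k)⟫_ℂ
        rw [ContinuousLinearMap.map_smul, inner_smul_left, inner_smul_right, ← mul_assoc]
        congr 1
        exact hr.symm
      · intro k hk
        rw [Finset.mem_range] at hk
        rw [h2 k hk, inner_zero_left]
  map_one := mtr_one hn
  tracial := fun x y => mtr_comm _ _
  faithful := fun x h => Subtype.ext (mtr_faithful _ h)

theorem mat_near {n : ℕ} (x : Mat n) : ∃ w ∈ unitary (Mat n),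
    n2 (mtr n) (x - w) ^ 2 ≤ n2 (mtr n) (star x * x - 1) := by
  rcases Nat.eq_zero_or_pos n with hn | hn
  · subst hn
    refine ⟨1, one_mem _, ?_⟩
    rw [Subsingleton.elim (x - 1) 0, Subsingleton.elim (star x * x - 1) 0]
    simp [n2]
  obtain ⟨w, hw, h⟩ := exists_unitary_near (mState n hn.ne') ⟨x, mem_topVN x⟩
  refine ⟨(w : Mat n), ?_, h⟩
  rw [Unitary.mem_iff] at hw ⊢
  exact ⟨congrArg Subtype.val hw.1, congrArg Subtype.val hw.2⟩

/-- no infinite separated families in matrix algebras -/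
theorem no_sep {n : ℕ} (x : ℕ → Mat n) (hx : ∀ k, ‖x k‖ ≤ 1)
    (h : ∀ k l, k ≠ l → 1 / 2 ≤ n2 (mtr n) (x k - x l)) : False := by
  have hp : ProperSpace (Mat n) := FiniteDimensional.proper ℂ (Mat n)
  obtain ⟨a, _, φ, hφ, ha⟩ := tendsto_subseq_of_bounded (x := x)
    (Metric.isBounded_closedBall (x := (0 : Mat n)) (r := 1))
    (fun k => mem_closedBall_zero_iff.2 (hx k))
  have h1 := ha.cauchySeq
  rw [Metric.cauchySeq_iff'] at h1
  obtain ⟨M, hM⟩ := h1 (1 / 2) (by norm_num)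
  have h2 := hM (M + 1) (Nat.le_succ M)
  rw [dist_eq_norm] at h2
  have h3 := h (φ (M + 1)) (φ M) (hφ (Nat.lt_succ_self M)).ne'
  have h4 := n2_mtr_le (x (φ (M + 1)) - x (φ M))
  exact absurd (h3.trans h4) (not_le.2 h2)

end Pool.Agent.H666R3.PC
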