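import Mathlib
import Pool.Agent.H666R3.PC.Defs
import Pool.Agent.H666R3.PC.MatTr
import Pool.Agent.H666R3.PC.TU
import Pool.Agent.Helper436.SM.TrUniq
import Pool.Agent.Helper278.RGVN

set_option autoImplicit false
set_option linter.unusedSectionVars false

open scoped InnerProductSpace Topology ComplexOrder
open Filter

namespace Pool.Agent.H666R3.PC

open Pool.Agent.Helper278

universe u v w

section ineq

variable {n : ℕ}

theorem n2m_sub (x : Mat 0) : n2 (mtr 0) x = 0 := by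
  rw [Subsingleton.elim x 0]
  simp [n2]

theorem n2m_add_le (x y : Mat n) : n2 (mtr n) (x + y) ≤ n2 (mtr n) x + n2 (mtr n) y := by
  rcases Nat.eq_zero_or_pos n with hn | hn
  · subst hn
    rw [n2m_sub, n2m_sub, n2m_sub, add_zero]
  · exact (trAlg_mtr hn.ne').n2_add_le x y

theorem n2m_neg (x : Mat n) : n2 (mtr n) (-x) = n2 (mtr n) x := by
  have h0 : star (-x) = -(star x) := star_neg x
  have h : star (-x) * (-x) = star x * x := by
    rw [h0]
    exact neg_mul_neg (star x) x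
  unfold n2
  rw [h]

theorem n2m_sub_comm (x y : Mat n) : n2 (mtr n) (x - y) = n2 (mtr n) (y - x) := by
  rw [← n2m_neg, neg_sub]

theorem n2m_tri (x y z : Mat n) :
    n2 (mtr n) (x - z) ≤ n2 (mtr n) (x - y) + n2 (mtr n) (y - z) := by
  have := n2m_add_le (x - y) (y - z)
  rwa [sub_add_sub_cancel] at this

theorem n2m_mul_le (x y : Mat n) : n2 (mtr n) (x * y) ≤ ‖x‖ * n2 (mtr n) y := by
  rw [n2_mtr, n2_mtr]
  have h1 : hs (x * y) ≤ ‖x‖ ^ 2 * hs y := by
    unfold hs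
    rw [mul_div_assoc', Finset.mul_sum]
    refine div_le_div_of_nonneg_right ?_ (Nat.cast_nonneg n)
    refine Finset.sum_le_sum fun k _ => ?_
    rw [← mul_pow]
    exact pow_le_pow_left₀ (norm_nonneg _) (x.le_opNorm _) 2
  calc Real.sqrt (hs (x * y)) ≤ Real.sqrt (‖x‖ ^ 2 * hs y) := Real.sqrt_le_sqrt h1
    _ = ‖x‖ * Real.sqrt (hs y) := by
        rw [Real.sqrt_mul (by positivity), Real.sqrt_sq (norm_nonneg _)]

theorem n2m_star (x : Mat n) : n2 (mtr n) (star x) = n2 (mtr n) x := by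
  unfold n2
  rw [star_star, mtr_comm]

theorem n2m_mul_le' (x y : Mat n) : n2 (mtr n) (x * y) ≤ n2 (mtr n) x * ‖y‖ := by
  rw [← n2m_star, star_mul, mul_comm, ← n2m_star x, ← norm_star y]
  exact n2m_mul_le _ _

theorem n2m_smul (c : ℂ) (x : Mat n) : n2 (mtr n) (c • x) = ‖c‖ * n2 (mtr n) x := by
  rw [n2_mtr, n2_mtr]
  have h1 : hs (c • x) = ‖c‖ ^ 2 * hs x := by
    unfold hs
    rw [mul_div_assoc', Finset.mul_sum]
    congr 1
    refine Finset.sum_congr rfl fun k _ => ?_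
    rw [smul_apply, norm_smul, mul_pow]
  rw [h1, Real.sqrt_mul (by positivity), Real.sqrt_sq (norm_nonneg _)]

theorem norm_mtr_le (x : Mat n) : ‖mtr n x‖ ≤ n2 (mtr n) x := by
  rcases Nat.eq_zero_or_pos n with hn | hn
  · subst hn
    rw [Subsingleton.elim x 0, map_zero, norm_zero]
    exact n2_nonneg _ _
  · exact (trAlg_mtr hn.ne').norm_le x

end ineq

/-- the iterated ultrafilter on `J × ℕ` -/
def iterU {J : Type v} (U₂ : Ultrafilter J) (U : Ultrafilter ℕ) : Ultrafilter (J × ℕ) :=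
  U₂.bind fun j => U.map fun n => (j, n)

theorem eventually_iterU {J : Type v} (U₂ : Ultrafilter J) (U : Ultrafilter ℕ)
    (p : J × ℕ → Prop) : (∀ᶠ k in (iterU U₂ U : Filter (J × ℕ)), p k) ↔
      ∀ᶠ j in (U₂ : Filter J), ∀ᶠ n in (U : Filter ℕ), p (j, n) := Iff.rfl

/-- the 2-distance of two families of matrices -/
noncomputable def dM {J : Type v} (y y' : J → (n : ℕ) → Mat n) (k : J × ℕ) : ℝ :=
  n2 (mtr k.2) (y k.1 k.2 - y' k.1 k.2)

theorem eqM_iff {J : Type v} {U₂ : Ultrafilter J} {U : Ultrafilter ℕ}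
    (y y' : J → (n : ℕ) → Mat n) :
    EqM U₂ U y y' ↔ Tendsto (dM y y') (iterU U₂ U) (𝓝 0) := by
  rw [Metric.tendsto_nhds]
  constructor
  · intro h ε hε
    rw [eventually_iterU]
    refine (h (ε ^ 2) (by positivity)).mono fun j hj => hj.mono fun n hn => ?_
    rw [Real.dist_eq, sub_zero]
    show |n2 (mtr n) (y j n - y' j n)| < ε
    rw [abs_of_nonneg (n2_nonneg _ _), n2_mtr, ← Real.sqrt_sq hε.le]
    exact Real.sqrt_lt_sqrt (hs_nonneg _) hn
  · intro h ε hε
    have h1 := h (Real.sqrt ε) (Real.sqrt_pos.2 hε)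
    rw [eventually_iterU] at h1
    refine h1.mono fun j hj => hj.mono fun n hn => ?_
    rw [Real.dist_eq, sub_zero] at hn
    change |n2 (mtr n) (y j n - y' j n)| < Real.sqrt ε at hn
    rw [abs_of_nonneg (n2_nonneg _ _), n2_mtr] at hn
    exact (Real.sqrt_lt_sqrt_iff (hs_nonneg _)).1 hn

section eqM

variable {J : Type v} {U₂ : Ultrafilter J} {U : Ultrafilter ℕ}
  {y y' z z' : J → (n : ℕ) → Mat n}

theorem EqM.refl (y : J → (n : ℕ) → Mat n) : EqM U₂ U y y := by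
  rw [eqM_iff]
  have : dM y y = fun _ => 0 := by
    funext k
    unfold dM
    rw [sub_self]
    simp [n2]
  rw [this]
  exact tendsto_const_nhds

theorem EqM.symm (h : EqM U₂ U y z) : EqM U₂ U z y := by
  rw [eqM_iff] at h ⊢
  exact h.congr fun k => n2m_sub_comm _ _

theorem EqM.trans (h1 : EqM U₂ U y z) (h2 : EqM U₂ U z z') : EqM U₂ U y z' := by
  rw [eqM_iff] at h1 h2 ⊢
  have h3 := h1.add h2
  rw [add_zero] at h3
  exact squeeze_zero (fun k => n2_nonneg _ _) (fun k => n2m_tri _ _ _) h3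

theorem EqM.addc (h1 : EqM U₂ U y z) (h2 : EqM U₂ U y' z') : EqM U₂ U (y + y') (z + z') := by
  rw [eqM_iff] at h1 h2 ⊢
  have h3 := h1.add h2
  rw [add_zero] at h3
  refine squeeze_zero (fun k => n2_nonneg _ _) (fun k => ?_) h3
  unfold dM
  have e : (y + y') k.1 k.2 - (z + z') k.1 k.2 =
      (y k.1 k.2 - z k.1 k.2) + (y' k.1 k.2 - z' k.1 k.2) := by
    simp only [Pi.add_apply]
    abel
  rw [e]
  exact n2m_add_le _ _

theorem EqM.mulc (h1 : EqM U₂ U y z) (h2 : EqM U₂ U y' z') (b1 : BddM y') (b2 : BddM z) :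
    EqM U₂ U (y * y') (z * z') := by
  rw [eqM_iff] at h1 h2 ⊢
  obtain ⟨C, hC⟩ := b1
  obtain ⟨D, hD⟩ := b2
  have h3 := (h1.mul_const C).add (h2.const_mul D)
  rw [mul_zero, zero_mul, add_zero] at h3
  refine squeeze_zero (fun k => n2_nonneg _ _) (fun k => ?_) h3
  unfold dM
  have e : (y * y') k.1 k.2 - (z * z') k.1 k.2 =
      (y k.1 k.2 - z k.1 k.2) * y' k.1 k.2 + z k.1 k.2 * (y' k.1 k.2 - z' k.1 k.2) := by
    simp only [Pi.mul_apply]
    rw [sub_mul, mul_sub]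
    abel
  rw [e]
  refine (n2m_add_le _ _).trans (add_le_add ?_ ?_)
  · exact (n2m_mul_le' _ _).trans (mul_le_mul_of_nonneg_left (hC _ _) (n2_nonneg _ _))
  · exact (n2m_mul_le _ _).trans (mul_le_mul_of_nonneg_right (hD _ _) (n2_nonneg _ _))

theorem EqM.starc (h1 : EqM U₂ U y z) : EqM U₂ U (star y) (star z) := by
  rw [eqM_iff] at h1 ⊢
  refine h1.congr fun k => ?_
  unfold dM
  rw [← n2m_star]
  congr 1
  exact star_sub (y k.1 k.2) (z k.1 k.2)

theorem EqM.smulc (c : ℂ) (h1 : EqM U₂ U y z) : EqM U₂ U (c • y) (c • z) := by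
  rw [eqM_iff] at h1 ⊢
  have h3 := h1.const_mul ‖c‖
  rw [mul_zero] at h3
  refine h3.congr fun k => ?_
  unfold dM
  rw [← n2m_smul, smul_sub]
  rfl

end eqM

/-- currying -/
def cu {J : Type v} (z : (k : J × ℕ) → Mat k.2) : J → (n : ℕ) → Mat n := fun j n => z (j, n)

theorem bddM_cu {J : Type v} {z : (k : J × ℕ) → Mat k.2} (hz : Bd z) : BddM (cu z) := by
  obtain ⟨C, hC⟩ := hz
  exact ⟨C, fun j n => hC (j, n)⟩

end Pool.Agent.H666R3.PC
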