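import Mathlib
import Pool.Agent.H666R3.PC.Iso

set_option autoImplicit false
set_option linter.unusedSectionVars false

open scoped InnerProductSpace Topology ComplexOrder
open Filter

namespace Pool.Agent.H666R3.PC

open Pool.Agent.Helper278 Pool.Agent.Helper436.SM

universe u v

variable {G : Type} [Group G] {K : Type} [NormedAddCommGroup K] [InnerProductSpace ℂ K]
  [CompleteSpace K] {b : HilbertBasis G ℂ K} {N : VonNeumannAlgebra K}
  {T : TracialState N} {I : Type u} {J : Type v} {U₁ : Ultrafilter I} {U₂ : Ultrafilter J}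
  {U : Ultrafilter ℕ} {P : Type u} [Ring P] [StarRing P] [Algebra ℂ P] {π₀ : (I → Elt N) → P}
  {φ : P → ℂ} {Φ : (I → (K →L[ℂ] K)) → (J → (n : ℕ) → Mat n)}

/-- coercion of families -/
def co (x : I → Elt N) : I → (K →L[ℂ] K) := fun i => (x i : K →L[ℂ] K)

theorem bddN_co (hm : ∀ x : K →L[ℂ] K, x ∈ LG b ↔ x ∈ N.toStarSubalgebra) {x : I → Elt N}
    (hx : CE.BddFam x) : BddN b (co x) := by
  obtain ⟨C, hC⟩ := hx
  exact ⟨fun i => (hm _).2 (x i).2, C, fun i => hC i⟩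

theorem pi_eq_iff_eqN (hn2 : ∀ x : Elt N, n2 T.τ x = ‖(x : K →L[ℂ] K) (b 1)‖)
    (h1 : CE.IsTracialUltrapower (fun x => T.τ x) U₁ π₀ φ) {x x' : I → Elt N}
    (hx : CE.BddFam x) (hx' : CE.BddFam x') : π₀ x = π₀ x' ↔ EqN b U₁ (co x) (co x') := by
  rw [h1.quot.eq_iff hx hx']
  have h2 : Tendsto (fun i => T.τ (star (x i - x' i) * (x i - x' i))) U₁ (𝓝 0) ↔
      Tendsto (fun i => n2 T.τ (x i - x' i)) U₁ (𝓝 0) :=
    (trAlg T).tendsto_iff _ _
  refine h2.trans ?_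
  rw [Metric.tendsto_nhds]
  have h3 : ∀ i, dist (n2 T.τ (x i - x' i)) 0 = ‖(co x i - co x' i) (b 1)‖ := by
    intro i
    rw [Real.dist_eq, sub_zero, abs_of_nonneg (n2_nonneg _ _), hn2]
    rfl
  simp only [h3]
  rfl

/-- The ultrapower of `L(G)` is presented as the ultrapower of the matrix ultraproduct. -/
theorem present (hm : ∀ x : K →L[ℂ] K, x ∈ LG b ↔ x ∈ N.toStarSubalgebra)
    (hn2 : ∀ x : Elt N, n2 T.τ x = ‖(x : K →L[ℂ] K) (b 1)‖)
    (h1 : CE.IsTracialUltrapower (fun x => T.τ x) U₁ π₀ φ) (hΦ : IsIso b U₁ U₂ U Φ)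
    (hU : ∀ n, {n} ∉ U) (hL : LyapProp T.τ) (hN : HasTrivialCenter N) :
    ∃ ρ : ((k : J × ℕ) → Mat k.2) → P,
      IsTU (fun k => mtr k.2) (iterU U₂ U) ρ φ := by
  have key : ∀ z : (k : J × ℕ) → Mat k.2, Bd z →
      ∃ x : I → Elt N, CE.BddFam x ∧ EqM U₂ U (Φ (co x)) (cu z) := by
    intro z hz
    obtain ⟨x, hx, hxe⟩ := hΦ.surj (cu z) (bddM_cu hz)
    obtain ⟨hx1, C, hC⟩ := hx
    exact ⟨fun i => ⟨x i, (hm _).1 (hx1 i)⟩, ⟨C, fun i => hC i⟩, hxe⟩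
  choose! S hS hSe using key
  obtain ⟨ρ, hρ⟩ : ∃ ρ : ((k : J × ℕ) → Mat k.2) → P, ∀ z, ρ z = π₀ (S z) :=
    ⟨fun z => π₀ (S z), fun _ => rfl⟩
  have char : ∀ z, Bd z → ∀ x : I → Elt N, CE.BddFam x → EqM U₂ U (Φ (co x)) (cu z) →
      ρ z = π₀ x := by
    intro z hz x hx hxe
    rw [hρ, pi_eq_iff_eqN hn2 h1 (hS z hz) hx, hΦ.inj _ _ (bddN_co hm (hS z hz)) (bddN_co hm hx)]
    exact (hSe z hz).trans hxe.symm
  have hbΦ : ∀ x : I → Elt N, CE.BddFam x → BddM (Φ (co x)) := fun x hx =>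
    hΦ.bdd _ (bddN_co hm hx)
  have f_add : ∀ z z' : (k : J × ℕ) → Mat k.2, Bd z → Bd z' →
      ρ (fun k => z k + z' k) = ρ z + ρ z' := by
    intro z z' hz hz'
    rw [hρ z, hρ z', ← h1.quot.add _ _ (hS z hz) (hS z' hz')]
    refine char _ (hz.add hz') _ (CE.bdd_add (hS z hz) (hS z' hz')) ?_
    exact (hΦ.add _ _ (bddN_co hm (hS z hz)) (bddN_co hm (hS z' hz'))).trans
      ((hSe z hz).addc (hSe z' hz'))
  have f_mul : ∀ z z' : (k : J × ℕ) → Mat k.2, Bd z → Bd z' →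
      ρ (fun k => z k * z' k) = ρ z * ρ z' := by
    intro z z' hz hz'
    rw [hρ z, hρ z', ← h1.quot.mul _ _ (hS z hz) (hS z' hz')]
    refine char _ (hz.mul hz') _ (CE.bdd_mul (hS z hz) (hS z' hz')) ?_
    exact (hΦ.mul _ _ (bddN_co hm (hS z hz)) (bddN_co hm (hS z' hz'))).trans
      ((hSe z hz).mulc (hSe z' hz') (hbΦ _ (hS z' hz')) (bddM_cu hz))
  have f_smul : ∀ (c : ℂ) (z : (k : J × ℕ) → Mat k.2), Bd z →
      ρ (fun k => c • z k) = c • ρ z := by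
    intro c z hz
    rw [hρ z, ← h1.quot.smul c _ (hS z hz)]
    refine char _ (hz.smul c) _ (CE.bdd_smul c (hS z hz)) ?_
    exact (hΦ.smul c _ (bddN_co hm (hS z hz))).trans ((hSe z hz).smulc c)
  have f_star : ∀ z : (k : J × ℕ) → Mat k.2, Bd z →
      ρ (fun k => star (z k)) = star (ρ z) := by
    intro z hz
    rw [hρ z, ← h1.quot.star _ (hS z hz)]
    refine char _ hz.st _ (bdd_st (hS z hz)) ?_
    exact (hΦ.star _ (bddN_co hm (hS z hz))).trans (hSe z hz).starc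
  have f_surj : ∀ q : P, ∃ z : (k : J × ℕ) → Mat k.2, Bd z ∧ ρ z = q := by
    intro q
    obtain ⟨x, hx, rfl⟩ := h1.quot.surj q
    obtain ⟨C, hC⟩ := hbΦ x hx
    have hz : Bd (fun k : J × ℕ => Φ (co x) k.1 k.2) := ⟨C, fun k => hC k.1 k.2⟩
    exact ⟨_, hz, char _ hz x hx (EqM.refl _)⟩
  have f_one : ρ (fun _ => 1) = 1 := by
    obtain ⟨z, hz, hz1⟩ := f_surj 1
    have h2 := f_mul (fun _ => 1) z Bd.const_one hz
    simp only [one_mul] at h2
    rw [hz1, mul_one] at h2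
    exact h2.symm
  have f_ker : ∀ z z' : (k : J × ℕ) → Mat k.2, Bd z → Bd z' →
      (ρ z = ρ z' ↔ Tendsto (fun k => n2 (mtr k.2) (z k - z' k)) (iterU U₂ U) (𝓝 0)) := by
    intro z z' hz hz'
    rw [hρ z, hρ z', pi_eq_iff_eqN hn2 h1 (hS z hz) (hS z' hz'),
      hΦ.inj _ _ (bddN_co hm (hS z hz)) (bddN_co hm (hS z' hz'))]
    have h2 : EqM U₂ U (cu z) (cu z') ↔
        Tendsto (fun k => n2 (mtr k.2) (z k - z' k)) (iterU U₂ U) (𝓝 0) := eqM_iff _ _
    rw [← h2]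
    exact ⟨fun h => (hSe z hz).symm.trans (h.trans (hSe z' hz')),
      fun h => (hSe z hz).trans (h.trans (hSe z' hz').symm)⟩
  -- limits of the traces
  have hlim : ∀ z : (k : J × ℕ) → Mat k.2, Bd z →
      ∃ c : ℂ, Tendsto (fun k => mtr k.2 (z k)) (iterU U₂ U) (𝓝 c) := by
    intro z hz
    obtain ⟨C, hC⟩ := hz
    have hc : IsCompact (Metric.closedBall (0 : ℂ) C) := isCompact_closedBall _ _
    have h3 : ((iterU U₂ U).map (fun k => mtr k.2 (z k)) : Ultrafilter ℂ) ≤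
        𝓟 (Metric.closedBall (0 : ℂ) C) := by
      rw [Ultrafilter.coe_map, le_principal_iff, mem_map]
      refine Filter.Eventually.of_forall fun k => ?_
      show mtr k.2 (z k) ∈ _
      rw [mem_closedBall_zero_iff]
      exact (norm_mtr_le _).trans ((n2_mtr_le _).trans (hC k))
    obtain ⟨c, _, hc2⟩ := (isCompact_iff_ultrafilter_le_nhds.1 hc) _ h3
    exact ⟨c, hc2⟩
  choose! L hLt using hlim
  choose Z hZ hZe using f_surj
  obtain ⟨ψ, hψ⟩ : ∃ ψ : P → ℂ, ∀ q, ψ q = L (Z q) := ⟨fun q => L (Z q), fun _ => rfl⟩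
  have htr : ∀ z : (k : J × ℕ) → Mat k.2, Bd z →
      Tendsto (fun k => mtr k.2 (z k)) (iterU U₂ U) (𝓝 (ψ (ρ z))) := by
    intro z hz
    have h2 := (f_ker z (Z (ρ z)) hz (hZ _)).1 (hZe _).symm
    have h3 : Tendsto (fun k => mtr k.2 (z k) - mtr k.2 (Z (ρ z) k)) (iterU U₂ U) (𝓝 0) := by
      rw [tendsto_zero_iff_norm_tendsto_zero]
      refine squeeze_zero (fun k => norm_nonneg _) (fun k => ?_) h2
      rw [← map_sub]
      exact norm_mtr_le _
    have h4 := h3.add (hLt _ (hZ (ρ z)))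
    rw [zero_add, ← hψ] at h4
    exact h4.congr fun k => sub_add_cancel _ _
  have hne : ∀ᶠ k in (iterU U₂ U : Filter (J × ℕ)), k.2 ≠ 0 := by
    rw [eventually_iterU]
    refine Eventually.of_forall fun j => ?_
    have h2 : ({0} : Set ℕ)ᶜ ∈ U := Ultrafilter.compl_mem_iff_notMem.2 (hU 0)
    exact h2
  let χ : P →ₗ[ℂ] ℂ :=
    { toFun := ψ
      map_add' := fun a b => by
        obtain ⟨x, hx, rfl⟩ : ∃ z, Bd z ∧ ρ z = a := ⟨Z a, hZ a, hZe a⟩
        obtain ⟨y, hy, rfl⟩ : ∃ z, Bd z ∧ ρ z = b := ⟨Z b, hZ b, hZe b⟩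
        rw [← f_add x y hx hy]
        refine tendsto_nhds_unique (htr _ (hx.add hy)) ?_
        refine ((htr x hx).add (htr y hy)).congr fun k => ?_
        exact (map_add (mtr k.2) _ _).symm
      map_smul' := fun c a => by
        obtain ⟨x, hx, rfl⟩ : ∃ z, Bd z ∧ ρ z = a := ⟨Z a, hZ a, hZe a⟩
        rw [← f_smul c x hx]
        refine tendsto_nhds_unique (htr _ (hx.smul c)) ?_
        refine ((htr x hx).const_mul c).congr fun k => ?_
        rw [map_smul, smul_eq_mul] }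
  have hχ : IsTr χ := by
    refine ⟨?_, ?_, ?_⟩
    · show ψ 1 = 1
      rw [← f_one]
      refine tendsto_nhds_unique (htr _ Bd.const_one) ?_
      refine (tendsto_const_nhds (x := (1 : ℂ))).congr' ?_
      filter_upwards [hne] with k hk
      exact (mtr_one hk).symm
    · intro a b
      show ψ (a * b) = ψ (b * a)
      obtain ⟨x, hx, rfl⟩ : ∃ z, Bd z ∧ ρ z = a := ⟨Z a, hZ a, hZe a⟩
      obtain ⟨y, hy, rfl⟩ : ∃ z, Bd z ∧ ρ z = b := ⟨Z b, hZ b, hZe b⟩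
      rw [← f_mul x y hx hy, ← f_mul y x hy hx]
      refine tendsto_nhds_unique (htr _ (hx.mul hy)) ?_
      refine (htr _ (hy.mul hx)).congr fun k => ?_
      exact mtr_comm _ _
    · intro a
      show 0 ≤ ψ (star a * a)
      obtain ⟨x, hx, rfl⟩ : ∃ z, Bd z ∧ ρ z = a := ⟨Z a, hZ a, hZe a⟩
      rw [← f_star x hx, ← f_mul _ _ hx.st hx]
      refine ge_of_tendsto' (htr _ (hx.st.mul hx)) fun k => ?_
      rw [mtr_star_mul]
      exact Complex.zero_le_real.2 (hs_nonneg _)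
  have hψφ : ∀ q, ψ q = φ q := fun q => TrUniq.trace_unique_gen h1 hL hN χ hχ q
  refine ⟨ρ, f_one, f_add, f_mul, f_smul, f_star, fun q => ⟨Z q, hZ q, hZe q⟩, f_ker, ?_⟩
  intro z hz
  rw [← hψφ]
  exact htr z hz

end Pool.Agent.H666R3.PC
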