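import Mathlib
import Pool.Agent.H666R3.PC.Present
import Pool.Agent.H666R3.PC.Down
import Pool.Agent.H666R3.PC.Exist
import Pool.Agent.Helper436.SN.Families
import Pool.Agent.Helper436.SN.LKPG
import Pool.Agent.Helper436.SN.Icc
import Pool.Agent.Helper436.SN.NIA
import Pool.Agent.Helper436.SN.RF

set_option autoImplicit false
set_option linter.unusedSectionVars false

open scoped InnerProductSpace Topology ComplexOrder
open Filter

namespace Pool.Agent.H666R3.PC

open Pool.Agent.Helper278 Pool.Agent.Helper278.CE Pool.Agent.Helper436.SM Pool.Agent.Helper436.SN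
open Pool.Agent.Helper278.RG

universe u v

section group

variable {G : Type} [Group G] {K : Type} [NormedAddCommGroup K] [InnerProductSpace ℂ K]
  [CompleteSpace K] (b : HilbertBasis G ℂ K)

theorem leftReg_eq' : leftReg b = Set.range (lamK b) := by
  ext S
  constructor
  · rintro ⟨g, hg⟩
    refine ⟨g, ?_⟩
    apply ext_basis b
    intro k
    rw [lamK_basis, hg]
  · rintro ⟨g, rfl⟩
    exact ⟨g, fun k => lamK_basis b g k⟩

theorem mem_LG_iff (x : K →L[ℂ] K) : x ∈ LG b ↔ x ∈ (LK b).toStarSubalgebra := by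
  have h1 : ((LK b).toStarSubalgebra : Set (K →L[ℂ] K)) = LG b := by
    show ((StarSubalgebra.centralizer ℂ (StarSubalgebra.centralizer ℂ
      (Set.range (lamK b)) : Set (K →L[ℂ] K)) : StarSubalgebra ℂ (K →L[ℂ] K)) :
        Set (K →L[ℂ] K)) = _
    rw [StarSubalgebra.coe_centralizer_centralizer]
    unfold LG
    rw [leftReg_eq']
    have h2 : (Set.range (lamK b) ∪ star (Set.range (lamK b))) = Set.range (lamK b) := by
      apply Set.union_eq_self_of_subset_right
      intro y hy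
      obtain ⟨g, hg⟩ := hy
      refine ⟨g⁻¹, ?_⟩
      rw [← star_lamK, hg, star_star]
    rw [h2]
  rw [← h1]
  rfl

theorem n2_eq (x : Elt (LK b)) : n2 (TL b).τ x = ‖(x : K →L[ℂ] K) (b 1)‖ := by
  rw [n2_TL]
  rfl

end group

/-- `L(G × G)` is not pseudocompact. -/
theorem not_iso {K : Type} [NormedAddCommGroup K] [InnerProductSpace ℂ K] [CompleteSpace K]
    (b : HilbertBasis (GG × GG) ℂ K) {U : Ultrafilter ℕ} (hU : ∀ n, {n} ∉ U) {I : Type u}
    {J : Type v} (U₁ : Ultrafilter I) (U₂ : Ultrafilter J)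
    (Φ : (I → (K →L[ℂ] K)) → (J → (n : ℕ) → Mat n)) (hΦ : IsIso b U₁ U₂ U Φ) : False := by
  have : Infinite (GG × GG) := gam_infinite
  have hv := pg_LK b
  have hN : HasTrivialCenter (LK b) := center_LK _ gam_icc
  have hinf : ¬ FiniteDimensional ℂ (Elt (LK b)) := infinite_LK _
  have hL : LyapProp (TL b).τ := lyapProp (TL b) (diffuse_of_factor (TL b) hN hinf)
  obtain ⟨P, _, _, _, π, φ, h1⟩ := exists_up (TL b) U₁
  obtain ⟨ρ, hρ⟩ := present (mem_LG_iff b) (n2_eq b) h1 hΦ hU hL hN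
  have hx1 := hv.px1
  have hx2 := hv.px2
  obtain ⟨κ, hκ0, -, b1⟩ := big_px hx1 hx2 (1 / 2) (by norm_num)
  set p := par (cp1 (LaHom b)) with hp
  set q := par (cp2 (LaHom b)) with hq
  have pu : ∀ j, p j ∈ unitary (Elt (LK b)) :=
    par_unitary fun g => hx1.u_unitary g
  have qu : ∀ j, q j ∈ unitary (Elt (LK b)) :=
    par_unitary fun g => hx2.u_unitary g
  have c1 : Big φ (fun j => π fun _ => p j) (fun j => π fun _ => q j) (κ / 2) 0 (2 / 10)
      (1 / 1000) (85 / 100) (1 / 2) 100 :=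
    Big.up (fun p q hp hq x hx κ h => Sol2.up h1 p q hp hq x hx κ h)
      (fun p q hp hq x hx κ κ' hκ h => Sol2.down h1 p q hp hq x hx κ κ' hκ h)
      (fun w hw x hx => tendsto_four h1 w hw x hx) (fun w hw x hx => tendsto_four' h1 w hw x hx)
      h1 p q pu qu (by linarith) (by norm_num) (by norm_num) b1
  have hpu : ∀ j, (π fun _ => p j) ∈ unitary P := fun j => pi_unitary h1 fun _ => pu j
  have hqu : ∀ j, (π fun _ => q j) ∈ unitary P := fun j => pi_unitary h1 fun _ => qu j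
  have hnear : ∀ (k : J × ℕ) (x : Mat k.2), ∃ w ∈ unitary (Mat k.2),
      n2 (mtr k.2) (x - w) ^ 2 ≤ n2 (mtr k.2) (star x * x - 1) := fun k x => mat_near x
  choose P' hP' hP'e using fun j => hρ.exists_lift hnear _ (hpu j)
  choose Q' hQ' hQ'e using fun j => hρ.exists_lift hnear _ (hqu j)
  have eP : (fun j => π fun _ => p j) = fun j => ρ (P' j) := funext fun j => (hP'e j).symm
  have eQ : (fun j => π fun _ => q j) = fun j => ρ (Q' j) := funext fun j => (hQ'e j).symm
  rw [eP, eQ] at c1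
  have c2 : Inf3 φ (fun j => ρ (P' j)) (fun j => ρ (Q' j)) (κ / 2) 0 (2 / 10) (1 / 1000) :=
    ⟨c1.inj, c1.sq, c1.ne⟩
  have c3 := Inf3.down hρ hnear P' Q' hP' hQ' (κ₂ := κ / 4) (κ₂' := κ / 4) (c₂ := 3 / 10)
    (e₂ := 1 / 500) (by linarith) (by linarith) (by norm_num) (by norm_num) c2
  have hne : ∀ᶠ k in (iterU U₂ U : Filter (J × ℕ)), k.2 ≠ 0 := by
    rw [eventually_iterU]
    refine Eventually.of_forall fun j => ?_
    have h2 : ({0} : Set ℕ)ᶜ ∈ U := Ultrafilter.compl_mem_iff_notMem.2 (hU 0)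
    exact h2
  obtain ⟨k, k1, k2⟩ := (c3.and hne).exists
  obtain ⟨x, x1, x2⟩ := Inf3.seq (trAlg_mtr k2) (by norm_num) (by norm_num) k1
  refine no_sep x (fun l => ?_) x2
  rcases subsingleton_or_nontrivial (Mat k.2) with h | h
  · rw [Subsingleton.elim (x l) 0, norm_zero]
    exact zero_le_one
  · exact (CStarRing.norm_of_mem_unitary (x1 l)).le

theorem gam_IsICC : PC.IsICC (GG × GG) := by
  refine ⟨gam_infinite, fun g hg => ?_⟩
  have h := gam_icc g hg
  have e : {k : GG × GG | ∃ h : GG × GG, k = h * g * h⁻¹} =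
      Set.range fun h : GG × GG => h * g * h⁻¹ := by
    ext k
    constructor
    · rintro ⟨h, rfl⟩
      exact ⟨h, rfl⟩
    · rintro ⟨h, rfl⟩
      exact ⟨h, rfl⟩
  rw [e]
  exact h

theorem gam_not_ia : ¬ IsInnerAmenable (GG × GG) := by
  rintro ⟨m, hm⟩
  exact gam_not_innerAmenable ⟨m, ⟨hm.nonneg, hm.univ, hm.one, hm.add, hm.inv⟩⟩

theorem gam_rf : IsResiduallyFinite (GG × GG) := by
  intro g hg
  obtain ⟨Ω, hΩ, σ, hσ⟩ :=
    rf_prod (fun g hg => gg_rf free_rf g hg) (fun g hg => gg_rf free_rf g hg) g hg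
  classical
  exact ⟨Equiv.Perm Ω, inferInstance, inferInstance, σ, hσ⟩

theorem gam_not_pc : ¬ Pseudocompact.{u, v} (GG × GG) := by
  rintro ⟨K, _, _, _, b, U, hU, I, J, U₁, U₂, Φ, hΦ⟩
  exact not_iso b hU U₁ U₂ Φ hΦ

theorem main : ∃ (G : Type) (_ : Group G), Countable G ∧ IsResiduallyFinite G ∧ PC.IsICC G ∧
    ¬ IsInnerAmenable G ∧ ¬ Pseudocompact.{u, v} G :=
  ⟨GG × GG, inferInstance, gam_countable, gam_rf, gam_IsICC, gam_not_ia, gam_not_pc⟩

end Pool.Agent.H666R3.PC
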